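import Mathlib
import Pool.Agent.TH395.P5.Blk5
import Pool.Agent.Y642.RN.A
import Pool.Agent.X42.FewCuts
import Pool.Agent.X24.CutSum

set_option autoImplicit false

/-!
# Tangential 2-blocks over GF(2) and sums along small edge cuts (MP_aa6b05_co)

Let `CutSum` be the least class of finite multigraphs which contains the graphs of pathwidth at most
five, the graphs of treewidth at most four and the graphs without seventeen pairwise disjoint vertex
sets with 1, 3, 5, 7 or 9 boundary edges, and which contains a graph `G` as soon as it contains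
`G / Z` and `G / Zᶜ` for some set `Z` of vertices with at most three boundary edges. Tutte's
tangential 2-block conjecture holds for the cographic matroids of the graphs in this class.
-/

namespace Pool.Agent.Results.MP_aa6b05_co.CutSums

/-- The incidence vector of the vertex `v` over GF(2): the coordinate of an edge is the number of
its ends which are `v`, modulo 2 (so loops give 0). -/
def star {V E : Type} [DecidableEq V] (src dst : E → V) (v : V) : E → ZMod 2 :=
  fun e => (if src e = v then 1 else 0) + (if dst e = v then 1 else 0)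

/-- The vectors `vec e` represent the cographic matroid of the graph: the linear relations between
them are exactly the elements of the cut space, which is spanned by the incidence vectors. -/
def RepresentsCographic {V E : Type} [DecidableEq V] [Fintype E] (src dst : E → V) {n : ℕ}
    (vec : E → Fin n → ZMod 2) : Prop :=
  ∀ x : E → ZMod 2, ∑ e, x e • vec e = 0 ↔
    x ∈ Submodule.span (ZMod 2) (Set.range (star src dst))

/-- The simple matroid represented by the set `S` of vectors over GF(2) is a 2-block: `S` has no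
zero vector and no linear map to the plane over GF(2) is nonzero on all of `S`. -/
def IsTwoBlock {n : ℕ} (S : Set (Fin n → ZMod 2)) : Prop :=
  (0 : Fin n → ZMod 2) ∉ S ∧
    ¬ ∃ L : (Fin n → ZMod 2) →ₗ[ZMod 2] (Fin 2 → ZMod 2), ∀ s ∈ S, L s ≠ 0

/-- `S` represents a tangential 2-block: it is a 2-block, and no proper minor without loops
(contract `C`, keep `T`) is a 2-block. This is the hypothesis of the frozen statement S10691. -/
def IsTangential {n : ℕ} (S : Set (Fin n → ZMod 2)) : Prop :=
  IsTwoBlock S ∧
    ∀ C T : Set (Fin n → ZMod 2), C ⊆ S → T ⊆ S → T ≠ S →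
      (∀ t ∈ T, t ∉ Submodule.span (ZMod 2) C) →
      ∃ L : (Fin n → ZMod 2) →ₗ[ZMod 2] (Fin 2 → ZMod 2),
        (∀ c ∈ C, L c = 0) ∧ ∀ t ∈ T, L t ≠ 0

/-- The cut space of the Petersen graph: vertices `0, ..., 9`, edges `0, ..., 14`. -/
def petersenCuts : Submodule (ZMod 2) (Fin 15 → ZMod 2) :=
  Submodule.span (ZMod 2) (Set.range (fun v : Fin 10 => fun k : Fin 15 =>
    if (![0,1,2,3,4,5,6,7,8,9,0,1,2,3,4] : Fin 15 → Fin 10) k = v ∨
       (![1,2,3,4,0,7,8,9,5,6,5,6,7,8,9] : Fin 15 → Fin 10) k = v
    then (1 : ZMod 2) else 0))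

/-- `X 0, X 1, ...` is a path decomposition of width at most `w`: every edge has both ends in one
of the sets, every vertex lies in an interval of the sets, and the sets have at most `w + 1`
elements. -/
structure IsPathDecomposition {V E : Type} [DecidableEq V] (src dst : E → V) (w : ℕ)
    (X : ℕ → Finset V) : Prop where
  edge : ∀ e, ∃ i, src e ∈ X i ∧ dst e ∈ X i
  interval : ∀ i j k, i ≤ j → j ≤ k → X i ∩ X k ⊆ X j
  width : ∀ i, (X i).card ≤ w + 1

/-- Tree decomposition of the graph, with bags `bag i` for the nodes `i` of the tree `T`. -/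
def IsTreeDecomposition {V E ι : Type} (src dst : E → V) (T : SimpleGraph ι)
    (bag : ι → Finset V) : Prop :=
  T.IsTree ∧ (∀ v, ∃ i, v ∈ bag i) ∧ (∀ e, ∃ i, src e ∈ bag i ∧ dst e ∈ bag i) ∧
    ∀ (i j : ι) (p : T.Walk i j), p.IsPath → ∀ k ∈ p.support, ∀ v, v ∈ bag i → v ∈ bag j →
      v ∈ bag k

/-- The treewidth is at most `k`. -/
def TreewidthLE {V E : Type} (src dst : E → V) (k : ℕ) : Prop :=
  ∃ (ι : Type) (_ : Fintype ι) (T : SimpleGraph ι) (bag : ι → Finset V),
    IsTreeDecomposition src dst T bag ∧ ∀ i, (bag i).card ≤ k + 1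

/-- The number of edges with exactly one end in `X`. -/
noncomputable def boundary {V E : Type} (src dst : E → V) (X : Set V) : ℕ :=
  {e | ¬ (src e ∈ X ↔ dst e ∈ X)}.ncard

/-- There are no seventeen pairwise disjoint vertex sets whose numbers of boundary edges are odd
and at most nine (for example, because at most sixteen vertices have odd degree). -/
def NoSeventeen {V E : Type} (src dst : E → V) : Prop :=
  ¬ ∃ X : Fin 17 → Set V, (∀ i j, i ≠ j → Disjoint (X i) (X j)) ∧
    ∀ i, Odd (boundary src dst (X i)) ∧ boundary src dst (X i) ≤ 9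

/-- The basic graphs: pathwidth at most five, or treewidth at most four, or no seventeen disjoint
vertex sets with odd boundaries of size at most nine. -/
def Basic {V E : Type} [DecidableEq V] (src dst : E → V) : Prop :=
  (∃ X, IsPathDecomposition src dst 5 X) ∨ TreewidthLE src dst 4 ∨ NoSeventeen src dst

/-- Contraction of `Z` to its element `z`: every vertex of `Z` is replaced by `z` (the edges inside
`Z` become loops at `z`, the other vertices of `Z` become isolated). -/
def contract {V : Type} [DecidableEq V] (Z : Finset V) (z v : V) : V := if v ∈ Z then z else v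

/-- The least class which contains the basic graphs and contains a graph as soon as it contains the
two contractions of the sides of a cut with at most three edges. -/
inductive CutSum {V E : Type} [Fintype V] [DecidableEq V] : (E → V) → (E → V) → Prop
  | basic (src dst : E → V) : Basic src dst → CutSum src dst
  | sum (src dst : E → V) (Z : Finset V) (z z' : V) : z ∈ Z → z' ∉ Z →
      boundary src dst (Z : Set V) ≤ 3 → CutSum (contract Z z ∘ src) (contract Z z ∘ dst) →
      CutSum (contract Zᶜ z' ∘ src) (contract Zᶜ z' ∘ dst) → CutSum src dst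

section
open Finset Pool.Agent.TH499.TF
variable {V E : Type} [Fintype V] [DecidableEq V] [Fintype E] [DecidableEq E]

/-- a walk from `A` to the outside of `A` has a step which leaves `A` -/
theorem leave {V : Type} {R : V → V → Prop} {A : Set V} {x y : V}
    (h : Relation.ReflTransGen R x y) (hx : x ∈ A) (hy : y ∉ A) : ∃ a b, a ∈ A ∧ b ∉ A ∧ R a b := by
  induction h with
  | refl => exact absurd hx hy
  | @tail b c _ h2 ih =>
    by_cases hb : b ∈ A
    · exact ⟨b, c, hb, hy, h2⟩
    · exact ih hb

omit [Fintype E] [DecidableEq E] in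
theorem PM_of_contracts {src dst : E → V}
    (h : Pool.Agent.TH362.Multi.ContractsToPetersen src dst) : PM src dst := by
  classical
  obtain ⟨B, h1, h2, h3, -⟩ := h
  refine ⟨fun i => univ.filter (· ∈ B i), fun i A hA hne hA' => ?_, fun i j hij => ?_,
    fun i j hij => ?_⟩
  · obtain ⟨a, ha⟩ := hne
    obtain ⟨b, hb, hbA⟩ : ∃ b ∈ univ.filter (· ∈ B i), b ∉ A := by
      by_contra hcon
      push Not at hcon
      exact hA' (Subset.antisymm hA hcon)
    obtain ⟨c, d, hc, hd, e, he, hj⟩ := leave (A := (A : Set V))
      ((h1 i).2 a (mem_filter.mp (hA ha)).2 b (mem_filter.mp hb).2) ha hbA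
    have hdB : d ∈ B i := by
      rcases hj with ⟨h4, h5⟩ | ⟨h4, h5⟩
      · rw [← h5]; exact he.2
      · rw [← h4]; exact he.1
    exact ⟨e, c, d, hc, mem_filter.mpr ⟨mem_univ _, hdB⟩, hd, hj⟩
  · rw [Finset.disjoint_left]
    intro v hv hv'
    exact Set.disjoint_left.mp (h2 i j hij) (mem_filter.mp hv).2 (mem_filter.mp hv').2
  · obtain ⟨e, he, -⟩ := h3 i j hij
    rcases he with ⟨h4, h5⟩ | ⟨h4, h5⟩
    · exact ⟨e, _, _, mem_filter.mpr ⟨mem_univ _, h4⟩, mem_filter.mpr ⟨mem_univ _, h5⟩,
        Or.inl ⟨rfl, rfl⟩⟩
    · exact ⟨e, _, _, mem_filter.mpr ⟨mem_univ _, h5⟩, mem_filter.mpr ⟨mem_univ _, h4⟩,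
        Or.inr ⟨rfl, rfl⟩⟩

omit [Fintype V] [DecidableEq E] in
theorem dlt_eq (src dst : E → V) (Z : Finset V) :
    (dlt src dst Z).card = boundary src dst (Z : Set V) := by
  unfold boundary
  rw [← Set.ncard_coe_finset]
  congr 1
  ext e
  simp only [mem_coe, mem_dlt, Set.mem_ofPred_eq]

theorem basic_nz (src dst : E → V) (h : Basic src dst) (hb : ∀ Y, (dlt src dst Y).card ≠ 1)
    (hP : ¬ PM src dst) : NZ src dst := by
  classical
  rcases h with ⟨X, hX⟩ | h | h
  · exact TH395.P5.cls5 ⟨X, hX.edge, hX.interval, hX.width⟩ hP hb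
  · obtain ⟨ι, _, T, bag, ⟨t1, _, t2, t3⟩, t4⟩ := h
    have hTD : HasTD 5 src dst := HasTD.of_tree t1 t3 t2 t4
    exact cls_nz _ src dst rfl ⟨hTD, hP⟩ hb
  · have hN1 := Y642.RN.n1_of hb
    rcases X42.FlowH.mainB src dst univ hN1 (X42.FewCuts.not_bad hN1 (Or.inr (Or.inl h)))
      with h2 | h2
    · exact Y642.RN.nz_of h2
    · exact absurd (PM_of_contracts (TH362.TF.contracts src dst hN1 h2)) hP

theorem cutSum_nz {src dst : E → V} (h : CutSum src dst) (hb : ∀ Y, (dlt src dst Y).card ≠ 1)
    (hP : ¬ PM src dst) : NZ src dst := by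
  have key : ∀ {src dst : E → V}, CutSum src dst → X24.CS.Built Basic src dst := by
    intro src dst h
    induction h with
    | basic src dst h => exact .base _ _ h
    | sum src dst Z z z' hz hz' h3 _ _ ih1 ih2 =>
      exact .sum _ _ Z z z' hz hz' (by rw [dlt_eq]; exact h3) ih1 ih2
  exact (key h).nz basic_nz hb hP

end

/-- Let `S` be a set of vectors over GF(2) which represents the cographic matroid of a graph in the
class `CutSum` (parallel elements are represented by the same vector).  If `S` is a 2-block
then the minor of `S` for some `C ⊆ S` and 15 elements of `S` is the cographic matroid of the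
Petersen graph; if `S` is a tangential 2-block then `S` is the cographic matroid of the Petersen
graph, in the form of the frozen statement S10691. -/
theorem result :
    ∀ (n : ℕ) (S : Set (Fin n → ZMod 2)) (V E : Type) [Fintype V] [DecidableEq V] [Fintype E]
      [DecidableEq E] (src dst : E → V) (vec : E → Fin n → ZMod 2),
      RepresentsCographic src dst vec → Set.range vec = S → CutSum src dst →
      (IsTwoBlock S → ∃ (C : Set (Fin n → ZMod 2)) (t : Fin 15 → Fin n → ZMod 2),
        C ⊆ S ∧ Set.range t ⊆ S ∧ Function.Injective t ∧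
        ∀ x : Fin 15 → ZMod 2, ∑ k, x k • t k ∈ Submodule.span (ZMod 2) C ↔ x ∈ petersenCuts) ∧
      (IsTangential S → ∃ ψ : (Fin 15 → ZMod 2) →ₗ[ZMod 2] (Fin n → ZMod 2),
        LinearMap.ker ψ = petersenCuts ∧
        ⇑ψ '' Set.range (fun k : Fin 15 => (Pi.single k (1 : ZMod 2) : Fin 15 → ZMod 2)) = S) := by
  classical
  intro n S V E _ _ _ _ src dst vec hv hr hX
  have hv' : TH676.Blk.RepCo src dst vec := hv
  have hPC : TH676.Blk.PC = petersenCuts := rfl
  have main : IsTwoBlock S → ∃ (C : Set (Fin n → ZMod 2)) (t : Fin 15 → Fin n → ZMod 2),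
        C ⊆ S ∧ Set.range t ⊆ S ∧ Function.Injective t ∧
        ∀ x : Fin 15 → ZMod 2, ∑ k, x k • t k ∈ Submodule.span (ZMod 2) C ↔
          x ∈ TH676.Blk.PC := by
    rintro ⟨hz, hL⟩
    have h0 : ∀ e, vec e ≠ 0 := by
      intro e he
      apply hz
      rw [← hr, ← he]
      exact ⟨e, rfl⟩
    have hnz : ¬ TH499.TF.NZ src dst := by
      intro h
      obtain ⟨L, hL'⟩ := hv'.map h
      apply hL
      refine ⟨L, fun s hs => ?_⟩
      rw [← hr] at hs
      obtain ⟨e, rfl⟩ := hs
      exact hL' e
    have hPM : TH499.TF.PM src dst := by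
      by_contra hPM
      exact hnz (cutSum_nz hX (hv'.br h0) hPM)
    obtain ⟨D, ed, hx⟩ := hv'.minor hPM
    refine ⟨vec '' (D : Set E), fun k => vec (ed k), ?_, ?_, ?_, hx⟩
    · rintro _ ⟨e, _, rfl⟩
      rw [← hr]
      exact ⟨e, rfl⟩
    · rintro _ ⟨k, rfl⟩
      rw [← hr]
      exact ⟨ed k, rfl⟩
    · intro k l hkl
      by_contra hne
      apply TH676.Blk.pair_not_mem k l hne
      rw [← hx]
      have : ∑ m, (Pi.single k 1 + Pi.single l 1 : Fin 15 → ZMod 2) m • vec (ed m) = 0 := by
        simp only [Pi.add_apply, add_smul]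
        rw [Finset.sum_add_distrib]
        simp only [Pi.single_apply, ite_smul, one_smul, zero_smul, Finset.sum_ite_eq',
          Finset.mem_univ, if_true]
        have h3 : vec (ed k) = vec (ed l) := hkl
        rw [h3]
        funext i
        exact CharTwo.add_self_eq_zero _
      rw [this]
      exact Submodule.zero_mem _
  refine ⟨main, ?_⟩
  rintro ⟨h2, htan⟩
  obtain ⟨C, t, hC, ht, hinj, hx⟩ := main h2
  -- a single element is not in the span of `C`
  have hsum1 : ∀ k, ∑ m, (Pi.single k 1 : Fin 15 → ZMod 2) m • t m = t k := by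
    intro k
    simp only [Pi.single_apply, ite_smul, one_smul, zero_smul, Finset.sum_ite_eq',
      Finset.mem_univ, if_true]
  have hsp : ∀ k, t k ∉ Submodule.span (ZMod 2) C := by
    intro k hk
    apply TH676.Blk.single_not_mem k
    rw [← hx, hsum1]
    exact hk
  have hTS : Set.range t = S := by
    by_contra hne
    obtain ⟨L, hL1, hL2⟩ := htan C (Set.range t) hC ht hne (by
      rintro _ ⟨k, rfl⟩
      exact hsp k)
    obtain ⟨k, hk⟩ := TH676.Blk.pet_flow (fun k => ((L (t k)) 0, (L (t k)) 1)) (by
      intro x hxP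
      have h3 := (hx x).mpr hxP
      have h4 : L (∑ k, x k • t k) = 0 := by
        have hle : Submodule.span (ZMod 2) C ≤ LinearMap.ker L :=
          Submodule.span_le.mpr (fun c hc => hL1 c hc)
        exact hle h3
      rw [map_sum] at h4
      simp only [map_smul] at h4
      have h5 := congrFun h4 0
      have h6 := congrFun h4 1
      rw [Finset.sum_apply] at h5 h6
      refine Prod.ext ?_ ?_
      · rw [Prod.fst_sum]
        exact h5
      · rw [Prod.snd_sum]
        exact h6)
    apply hL2 (t k) ⟨k, rfl⟩
    funext i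
    fin_cases i
    · exact congrArg Prod.fst hk
    · exact congrArg Prod.snd hk
  have hC0 : C = ∅ := by
    rw [Set.eq_empty_iff_forall_notMem]
    intro c hc
    have h3 := hC hc
    rw [← hTS] at h3
    obtain ⟨k, rfl⟩ := h3
    exact hsp k (Submodule.subset_span hc)
  refine ⟨Fintype.linearCombination (ZMod 2) t, ?_, ?_⟩
  · ext x
    rw [LinearMap.mem_ker, Fintype.linearCombination_apply, ← hPC, ← hx, hC0,
      Submodule.span_empty, Submodule.mem_bot]
  · ext s
    rw [← hTS]
    constructor
    · rintro ⟨_, ⟨k, rfl⟩, rfl⟩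
      refine ⟨k, ?_⟩
      rw [Fintype.linearCombination_apply]
      exact (hsum1 k).symm
    · rintro ⟨k, rfl⟩
      refine ⟨_, ⟨k, rfl⟩, ?_⟩
      rw [Fintype.linearCombination_apply]
      exact hsum1 k

end Pool.Agent.Results.MP_aa6b05_co.CutSums
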